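import Pool.Agent.Q54.OD.Use

/-!
# Weak evasiveness: few exceptional numbers of variables, all numbers in short windows (MP_d4e2f9_lc)

Let `f` be a non-constant monotone Boolean function of `n` variables which is invariant under a transitive group of
order at most `s n` (so the point stabilisers have order at most `s`). We consider the bound
`D(f) ≥ n / (s log n) ^ (K log log n)`, which is of the form `n ^ (1 - o(1))` for bounded `s` and also for
`s = n ^ (o(1) / log log n)`.

1. For every `A` there is `K` such that this bound holds for ALL `s` and all such `f`, for all `n ≤ x` with at most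
   `x / log ^ A x` exceptions; so it holds also for almost all `n` of every set of integers with at least
   `x / log ^ B x` elements up to `x`, for instance for almost all `n = p - 1`, `p` prime.
2. For `0 < θ < 1` and all real `y ∈ [N ^ (1 - θ), 2 N ^ (1 - θ)]` outside a set of measure at most
   `N ^ (1 - θ - κ)` the bound holds for ALL `n` in the windows of radius `log ^ A N` around the multiples `k y`,
   `k ≤ N ^ θ`, with at most `N ^ θ / log ^ U N` exceptional `k`.
3. Let `b k ≥ exp (k ^ δ)` be integers, for instance `b k = 2 ^ k`. For almost every real `α > 0` and all large `k` the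
   bound holds for ALL `n` in the window of radius `(log (b k)) ^ A` around `α b k`.

From Mathlib: `volume`: the Lebesgue measure; `∀ᵐ α : ℝ`: for almost all real `α`; `∀ᶠ k in atTop`: for all large `k`.

Proof. For most `n` the primes `p > y = (s log n) ^ O(1)` which divide `n` divide it only once and no divisor `> 1` of
the order of the group is congruent to `1` modulo such a `p`; the Sylow subgroups for these primes are normal and the
topological method for the cyclic group which they generate gives the bound (starting files, `TH669.AD`), the loss being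
the part `m` of `n` composed of the primes `p ≤ y`. New is a bound with `log ^ A x` saved for the number of exceptions,
from an Euler product estimate for the tail `m > y ^ u`, `u = O(log log n)`, and from a dyadic decomposition in `s`. The
windows are treated by the count of the elements of arbitrary sparse sets near the multiples of real numbers (starting
files, `Pool.Agent.H438R2.DL`, in the form of helper319, `Pool.Agent.Q319.DR`).
-/

set_option autoImplicit false

namespace Pool.Agent.Results.MP_d4e2f9_lc.DegreesInWindows

open Filter MeasureTheory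

/-- `f` is computed by a decision tree of depth at most `k`, in the words of the frozen statement
of the problem: every predicate closed under the formation of decision trees holds for it. -/
def DepthLe {n : ℕ} (k : ℕ) (f : (Fin n → Bool) → Bool) : Prop :=
  ∀ P : ℕ → ((Fin n → Bool) → Bool) → Prop,
    (∀ (m : ℕ) (g : (Fin n → Bool) → Bool), (∀ x y, g x = g y) → P m g) →
    (∀ (m : ℕ) (g : (Fin n → Bool) → Bool) (i : Fin n),
       P m (fun x => g (Function.update x i false)) →
       P m (fun x => g (Function.update x i true)) → P (m + 1) g) →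
    P k f

/-- `G` is transitive. -/
def Trans {n : ℕ} (G : Subgroup (Equiv.Perm (Fin n))) : Prop := ∀ i j : Fin n, ∃ σ ∈ G, σ i = j

/-- For all `s ≥ 1` every non-constant monotone function of `n` variables which is invariant under a
transitive group of order at most `s n` has decision tree complexity at least `n / (s log n) ^ (K log log n)`. -/
def Good (K n : ℕ) : Prop :=
  ∀ s : ℕ, 1 ≤ s → ∀ G : Subgroup (Equiv.Perm (Fin n)), Trans G → Nat.card G ≤ s * n →
    ∀ f : (Fin n → Bool) → Bool, Monotone f → (∃ x y, f x ≠ f y) →
      (∀ σ ∈ G, ∀ x : Fin n → Bool, f (x ∘ σ) = f x) →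
      ∀ k : ℕ, DepthLe k f → (n : ℝ) ≤ (s * Real.log n) ^ ((K : ℝ) * Real.log (Real.log n)) * k

open Classical in
/-- The number of the `k` with `1 ≤ k ≤ X` for which not all natural numbers `n` at a distance of at most `w` from `k y`
have the property `P`. -/
noncomputable def exceptions (X y w : ℝ) (P : ℕ → Prop) : ℕ :=
  ((Finset.Icc 1 ⌊X⌋₊).filter (fun k : ℕ => ∃ n : ℕ, |(n : ℝ) - k * y| ≤ w ∧ ¬ P n)).card

lemma few : Pool.Agent.Q54.OD.Few Good := by
  refine Pool.Agent.Q54.OD.few_of Good fun K n hK hn hg => ?_
  intro s hs G htr hG f hf hne hinv k hk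
  obtain ⟨y, hsy, hgd⟩ := hg s hs
  have hU := Pool.Agent.Q54.OD.two_le_loss hK hs hn
  have h4 := Pool.Agent.TH669.AD.good_bound (by linarith) hsy hgd (by omega) G htr hG f hf hne hinv
    (Pool.Agent.TH669.AD.FS_dec hk)
  have h5 : (n : ℝ) ^ 2 ≤ (Pool.Agent.Q54.OD.loss K s n * k) ^ 2 := by
    refine h4.trans ?_
    rw [mul_pow]
    apply mul_le_mul_of_nonneg_right _ (by positivity)
    nlinarith
  exact (sq_le_sq₀ (Nat.cast_nonneg n) (by positivity)).1 h5

/-- `Good K n`: `D(f) ≥ n / (s log n) ^ (K log log n)` for all `s` and all non-constant monotone functions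
`f` of `n` variables which are invariant under a transitive group of order at most `s n`.
1. For every `A` there is `K` such that for all large `x` at most `x / log ^ A x` of the `n ≤ x` are not good.
2. For `0 < θ < 1` there is `κ > 0` such that for all `A`, `U` there is `K` such that for all large `N` there is a set
   `E` of real numbers of measure at most `N ^ (1 - θ - κ)` with: for every real `y` with
   `N ^ (1 - θ) ≤ y ≤ 2 N ^ (1 - θ)` outside `E` and for all `k ≤ N ^ θ`, with at most `N ^ θ / log ^ U N` exceptions,
   ALL `n` with `|n - k y| ≤ log ^ A N` are good.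
3. For all `A` and `δ > 0` there is `K` such that for all integers `b k` with `b k ≥ exp (k ^ δ)` for large `k` and for
   almost every real `α > 0`, for all large `k`, ALL `n` with `|n - α b k| ≤ (log (b k)) ^ A` are good. -/
theorem result :
    (∀ A : ℕ, ∃ K x₀ : ℕ, ∀ x : ℕ, x₀ ≤ x →
      ({n : ℕ | 1 ≤ n ∧ n ≤ x ∧ ¬ Good K n}.ncard : ℝ) ≤ x / Real.log x ^ A) ∧
    (∀ θ : ℝ, 0 < θ → θ < 1 → ∃ κ : ℝ, 0 < κ ∧ ∀ A U : ℕ, ∃ K N₀ : ℕ, ∀ N : ℕ, N₀ ≤ N →
      ∃ E : Set ℝ, MeasurableSet E ∧ volume E ≤ ENNReal.ofReal ((N : ℝ) ^ (1 - θ - κ)) ∧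
        ∀ y : ℝ, (N : ℝ) ^ (1 - θ) ≤ y → y ≤ 2 * (N : ℝ) ^ (1 - θ) → y ∉ E →
          (exceptions ((N : ℝ) ^ θ) y (Real.log N ^ A) (Good K) : ℝ) ≤ (N : ℝ) ^ θ / Real.log N ^ U) ∧
    (∀ (A : ℕ) (δ : ℝ), 0 < δ → ∃ K : ℕ, ∀ b : ℕ → ℕ, (∀ᶠ k : ℕ in atTop, Real.exp ((k : ℝ) ^ δ) ≤ b k) →
      ∀ᵐ α : ℝ, 0 < α → ∀ᶠ k : ℕ in atTop, ∀ n : ℕ, |(n : ℝ) - α * b k| ≤ Real.log (b k) ^ A → Good K n) :=
  ⟨few, Pool.Agent.Q54.OD.multiples Good few, Pool.Agent.Q54.OD.dilates Good few⟩

end Pool.Agent.Results.MP_d4e2f9_lc.DegreesInWindows
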