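import Pool.Agent.Q44.LogU
import Pool.Agent.Results.MP_d4e2f9_lc.DegreesInWindows

/-!
# Weak evasiveness: numbers of variables given by the continued fractions of almost all real numbers (MP_d4e2f9_lc)

`DegreesInWindows.Good K n` is the bound `D(f) ≥ n / (s log n) ^ (K log log n)` for all `s ≥ 1` and all non-constant
monotone Boolean functions `f` of `n` variables which are invariant under a transitive group of order at most `s n`
(`D(f)`: the decision tree complexity).

There is `K` such that for almost every real number `α`, all integers `(u, v) ≠ (0, 0)` and all but finitely many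
convergents `p / q` of the continued fraction of `α` the number `n = |u p + v q|` is good; in particular all large
numerators and all large denominators are good. More generally, for `d ≥ 1`, `A` and `K = K(d, A)`, for almost every point
`α` of `ℝ ^ d` and all integer vectors `c ≠ 0` all but finitely many of the integer vectors `x` with `x_0 ≥ 1` and
`|α_j - x_j / x_0| ≤ (1 + log x_0) ^ A x_0 ^ (-(1 + 1 / d))` for all `j` (there are infinitely many for every `α`, by
Dirichlet's theorem) have a number `|c · x|` which is good or zero.

Proof. The count of the `n ≤ x` which are not good (`DegreesInWindows`: at most `x / log ^ U x` for every `U` and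
`K = K(U)`) and the Borel-Cantelli lemma for the linear forms of good rational approximations (`Pool.Agent.Q44.CF`).
-/

set_option autoImplicit false

namespace Pool.Agent.Results.MP_d4e2f9_lc.GoodApproximations

open Pool.Agent.Q44.CF
open Pool.Agent.Results.MP_d4e2f9_lc.DegreesInWindows (Good DepthLe Trans)

/-- **Theorem.** For every `U > 1` there is `K` such that the numbers given by the good rational approximations of almost
all real points (`AtApproximationsOfLevel U`) are good: the bound `D(f) ≥ n / (s log n) ^ (K log log n)` holds for all `s`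
and all non-constant monotone functions of `n` variables invariant under a transitive group of order at most `s n`. -/
theorem result : ∀ U : ℝ, 1 < U → ∃ K : ℕ, AtApproximationsOfLevel U (Good K) := by
  intro U hU
  obtain ⟨K, x₀, h⟩ := DegreesInWindows.result.1 (⌈U⌉₊)
  refine ⟨K, atLevel_of hU (B := fun n => ¬ Good K n) ?_ fun n hn => hn⟩
  set X₁ : ℕ := max x₀ 3 with hX₁
  set M : ℝ := Real.log X₁ ^ U with hM
  have hX3 : (3 : ℝ) ≤ X₁ := by exact_mod_cast le_max_right x₀ 3
  have hlogX : 0 < Real.log X₁ := Real.log_pos (by linarith)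
  have hM0 : 0 < M := Real.rpow_pos_of_pos hlogX _
  refine ⟨M + 1, fun N hN F hF => ?_⟩
  have hN2 : (2 : ℝ) ≤ N := by exact_mod_cast hN
  have hlogN0 : 0 < Real.log N := Real.log_pos (by linarith)
  have hpos : 0 < Real.log N ^ U := Real.rpow_pos_of_pos hlogN0 _
  have hq : 0 ≤ (N : ℝ) / Real.log N ^ U := by positivity
  rw [mul_div_assoc]
  rcases lt_or_ge N X₁ with hlt | hge
  · have h1 : (F.card : ℝ) ≤ N := by
      have h2 : F ⊆ Finset.Icc 1 N := fun n hn => Finset.mem_Icc.2 ⟨(hF n hn).1, (hF n hn).2.1⟩
      have h3 := Finset.card_le_card h2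
      rw [Nat.card_Icc] at h3
      have h4 : F.card ≤ N := by omega
      exact_mod_cast h4
    have h2 : Real.log N ^ U ≤ M :=
      Real.rpow_le_rpow hlogN0.le (Real.log_le_log (by linarith) (by exact_mod_cast hlt.le)) (by linarith)
    have h3 : (N : ℝ) ≤ M * ((N : ℝ) / Real.log N ^ U) := by
      rw [mul_div_assoc', le_div_iff₀ hpos, mul_comm]
      exact mul_le_mul_of_nonneg_right h2 (by linarith)
    nlinarith
  · have hN3 : (3 : ℝ) ≤ N := by
      have : 3 ≤ N := le_trans (le_max_right _ _) hge
      exact_mod_cast this
    have hlog1 : 1 ≤ Real.log N := by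
      rw [Real.le_log_iff_exp_le (by linarith)]
      linarith [Real.exp_one_lt_d9]
    have h1 := h N (le_trans (le_max_left _ _) hge)
    have h2 : (F.card : ℝ) ≤ ({n : ℕ | 1 ≤ n ∧ n ≤ N ∧ ¬ Good K n}.ncard : ℝ) := by
      rw [← Set.ncard_coe_finset]
      refine Nat.cast_le.2 (Set.ncard_le_ncard ?_ ((Set.finite_Icc 1 N).subset fun m hm => ⟨hm.1, hm.2.1⟩))
      intro n hn
      exact hF n (Finset.mem_coe.1 hn)
    have h3 : Real.log N ^ U ≤ Real.log N ^ ⌈U⌉₊ := by
      rw [← Real.rpow_natCast]
      exact Real.rpow_le_rpow_of_exponent_le hlog1 (Nat.le_ceil U)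
    have h4 : (N : ℝ) / Real.log N ^ ⌈U⌉₊ ≤ (N : ℝ) / Real.log N ^ U :=
      div_le_div_of_nonneg_left (by linarith) hpos h3
    have h5 : 0 ≤ M * ((N : ℝ) / Real.log N ^ U) := by positivity
    linarith

end Pool.Agent.Results.MP_d4e2f9_lc.GoodApproximations
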