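import Pool.Agent.Q264.EVM.Code

/-!
# Evasiveness of transitive functions given by rank and size in a matroid (MP_d4e2f9_lc)

All statements hold for every number `n` of variables and give the full decision tree complexity
`D(f) = n` (`Evasive f`). `sp x` is the set of the variables which are one in `x`; `r` is the rank
function of a matroid on the set of the variables (`IsRank r`).

1. Let the matroid be invariant under a transitive group (or any transitive set) of permutations of
   the variables.  Every non-constant monotone function which is determined by the rank and the size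
   of `sp x` is evasive. (Such functions are transitive.)
2. Let `C` be a linear code of length `n` over any field, invariant under a transitive set of
   permutations of the coordinates (cyclic codes, group codes, ...).  Every non-constant monotone
   function which is determined by the size of `sp x` and the dimension of the space of the code words
   with support in `sp x` is evasive.  For example `sp x` contains the support of a nonzero code word,
   or of a subcode of dimension `k`, `1 ≤ k ≤ dim C`.
3. Let the matroid have no loops and `1 ≤ t ≤ r(V)`. Every function, monotone or not, which is one on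
   the independent sets of size `t` and zero on those of size `t - 1` is evasive; no condition is
   imposed on the other values. In particular `r (sp x) ≥ t` or `q x`, `q` any function which
   vanishes on the independent sets.
4. The dual statement, for the spanning sets with `k` and with `k - 1` superfluous elements.

Proof. An adversary (found for graph properties, `MP_257582_lc`, by helpers 295 and 330) answers the
queries such that the set of accepted variables stays independent in the truncated matroid, every
open variable would increase its rank, and the variables which are not excluded have full rank.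
-/

set_option autoImplicit false

namespace Pool.Agent.Results.MP_d4e2f9_lc.InvariantMatroids

open Finset

/-- Some decision tree of depth at most `k` computes `f`, in the words of the frozen statement: the
least class containing the constant functions at every depth, and at depth `m + 1` the functions
both of whose restrictions at some variable are in the class at depth `m`. -/
def DepthLe {n : ℕ} (k : ℕ) (f : (Fin n → Bool) → Bool) : Prop :=
  ∀ P : ℕ → ((Fin n → Bool) → Bool) → Prop,
    (∀ (m : ℕ) (g : (Fin n → Bool) → Bool), (∀ x y, g x = g y) → P m g) →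
    (∀ (m : ℕ) (g : (Fin n → Bool) → Bool) (i : Fin n),
       P m (fun x => g (Function.update x i false)) →
       P m (fun x => g (Function.update x i true)) → P (m + 1) g) →
    P k f

/-- `D(f) ≥ n`: every decision tree for `f` has depth at least `n`. -/
def Evasive {n : ℕ} (f : (Fin n → Bool) → Bool) : Prop := ∀ k, DepthLe k f → n ≤ k

/-- The set of the variables which are one. -/
def sp {n : ℕ} (x : Fin n → Bool) : Finset (Fin n) := univ.filter fun i => x i = true

/-- `r` satisfies the axioms of the rank functions of matroids. -/
structure IsRank {n : ℕ} (r : Finset (Fin n) → ℕ) : Prop where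
  le_card : ∀ S, r S ≤ S.card
  mono : ∀ S T, S ⊆ T → r S ≤ r T
  submod : ∀ S T, r (S ∪ T) + r (S ∩ T) ≤ r S + r T

/-- The space of the words of the code `C` whose support is contained in `S`. -/
def short {n : ℕ} {K : Type} [Field K] (C : Submodule K (Fin n → K)) (S : Finset (Fin n)) :
    Submodule K (Fin n → K) where
  carrier := {c | c ∈ C ∧ ∀ i, i ∉ S → c i = 0}
  add_mem' := by
    rintro a b ⟨ha, ha'⟩ ⟨hb, hb'⟩
    exact ⟨C.add_mem ha hb, fun i hi => by simp [ha' i hi, hb' i hi]⟩
  zero_mem' := ⟨C.zero_mem, fun _ _ => rfl⟩
  smul_mem' := by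
    rintro a b ⟨hb, hb'⟩
    exact ⟨C.smul_mem a hb, fun i hi => by simp [hb' i hi]⟩

theorem result (n : ℕ) :
    -- (1) functions determined by rank and size
    (∀ r : Finset (Fin n) → ℕ, IsRank r →
      (∀ i j : Fin n, ∃ σ : Equiv.Perm (Fin n), σ i = j ∧ ∀ S, r (S.image σ) = r S) →
      ∀ f : (Fin n → Bool) → Bool, Monotone f → (∃ x y, f x ≠ f y) →
        (∀ x y, r (sp x) = r (sp y) → (sp x).card = (sp y).card → f x = f y) → Evasive f) ∧
    -- (2) linear codes
    (∀ (K : Type) [Field K] (C : Submodule K (Fin n → K)),
      (∀ i j : Fin n, ∃ σ : Equiv.Perm (Fin n), σ i = j ∧ ∀ c : Fin n → K, c ∘ σ ∈ C ↔ c ∈ C) →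
      (∀ f : (Fin n → Bool) → Bool, Monotone f → (∃ x y, f x ≠ f y) →
        (∀ x y, Module.finrank K (short C (sp x)) = Module.finrank K (short C (sp y)) →
          (sp x).card = (sp y).card → f x = f y) → Evasive f) ∧
      ∀ k, 1 ≤ k → k ≤ Module.finrank K C →
        Evasive (fun x => decide (k ≤ Module.finrank K (short C (sp x))))) ∧
    -- (3) a jump on the independent sets
    (∀ r : Finset (Fin n) → ℕ, IsRank r → (∀ i, 1 ≤ r {i}) → ∀ t, 1 ≤ t → t ≤ r univ →
      (∀ f : (Fin n → Bool) → Bool,
        (∀ x, (sp x).card = t → r (sp x) = t → f x = true) →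
        (∀ x, (sp x).card = t - 1 → r (sp x) = t - 1 → f x = false) → Evasive f) ∧
      ∀ q : (Fin n → Bool) → Bool, (∀ x, r (sp x) = (sp x).card → q x = false) →
        Evasive (fun x => decide (t ≤ r (sp x)) || q x)) ∧
    -- (4) a jump on the spanning sets
    (∀ r : Finset (Fin n) → ℕ, IsRank r → (∀ i, r (univ \ {i}) = r univ) →
      ∀ k, 1 ≤ k → k + r univ ≤ n →
      (∀ f : (Fin n → Bool) → Bool,
        (∀ x, (sp x).card = r univ + k → r (sp x) = r univ → f x = true) →
        (∀ x, (sp x).card = r univ + (k - 1) → r (sp x) = r univ → f x = false) → Evasive f) ∧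
      ∀ q : (Fin n → Bool) → Bool, (∀ x, r (sp x) = r univ → q x = true) →
        Evasive (fun x => decide (k + r (sp x) ≤ (sp x).card) && q x)) := by
  have ev : ∀ f : (Fin n → Bool) → Bool, Pool.Agent.Q264.EVM.Ev f → Evasive f := by
    intro f hf k hk
    have := hf k hk
    rwa [Fintype.card_fin] at this
  have hr : ∀ r : Finset (Fin n) → ℕ, IsRank r → Pool.Agent.Q264.EVM.IsRank r :=
    fun r h => ⟨h.le_card, h.mono, h.submod⟩
  have hsp : ∀ S : Finset (Fin n), sp (Pool.Agent.Q264.EVM.ch S) = S :=
    fun S => Pool.Agent.Q264.EVM.sp_ch S
  have hcode : ∀ (K : Type) [Field K] (C : Submodule K (Fin n → K)) (S : Finset (Fin n)),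
      short C S = C ⊓ Pool.Agent.Q264.EVM.W K S := by
    intro K _ C S
    rfl
  refine ⟨?_, ?_, ?_, ?_⟩
  · intro r h hi f hm hne hd
    exact ev f (Pool.Agent.Q264.EVM.rank_size (hr r h) hi f hm hd hne)
  · intro K _ C hC
    have h1 : ∀ f : (Fin n → Bool) → Bool, Monotone f → (∃ x y, f x ≠ f y) →
        (∀ x y, Module.finrank K (short C (sp x)) = Module.finrank K (short C (sp y)) →
          (sp x).card = (sp y).card → f x = f y) → Evasive f := by
      intro f hm hne hd
      exact ev f (Pool.Agent.Q264.EVM.code_ev C hC f hm hd hne)
    refine ⟨h1, fun k hk hkC => h1 _ ?_ ?_ ?_⟩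
    · intro x y hxy
      have hsub : sp x ⊆ sp y := by
        intro i hi
        unfold sp at hi ⊢
        rw [mem_filter] at hi ⊢
        refine ⟨mem_univ _, ?_⟩
        have := hxy i
        rw [hi.2] at this
        exact Bool.eq_true_of_true_le this
      have h2 : Module.finrank K (short C (sp x)) ≤ Module.finrank K (short C (sp y)) :=
        Pool.Agent.Q264.EVM.dm_mono C hsub
      by_cases hk1 : k ≤ Module.finrank K (short C (sp x))
      · have hk2 := hk1.trans h2
        simp [hk1, hk2]
      · simp [hk1]
    · refine ⟨Pool.Agent.Q264.EVM.ch ∅, Pool.Agent.Q264.EVM.ch univ, ?_⟩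
      have e1 : Module.finrank K (short C (sp (Pool.Agent.Q264.EVM.ch (∅ : Finset (Fin n))))) = 0 := by
        rw [hsp]
        exact Pool.Agent.Q264.EVM.dm_empty C
      have e2 : Module.finrank K (short C (sp (Pool.Agent.Q264.EVM.ch (univ : Finset (Fin n))))) =
          Module.finrank K C := by
        rw [hsp]
        exact Pool.Agent.Q264.EVM.dm_univ C
      beta_reduce
      rw [e1, e2]
      have h3 : ¬ k ≤ 0 := by omega
      simp [h3, hkC]
    · intro x y hxy _
      beta_reduce
      rw [hxy]
  · intro r h hl t ht1 htr
    refine ⟨fun f hP1 hP0 => ev f ?_, fun q hq => ev _ ?_⟩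
    · exact Pool.Agent.Q264.EVM.indep_jump (hr r h) (fun e _ => hl e) ht1 htr f
        (fun S _ hc hrS => hP1 _ (by rw [hsp]; exact hc) (by rw [hsp]; exact hrS))
        (fun S _ hc hrS => hP0 _ (by rw [hsp]; exact hc) (by rw [hsp]; exact hrS))
    · exact Pool.Agent.Q264.EVM.or_ev (hr r h) (fun e _ => hl e) ht1 htr q hq
  · intro r h hl k hk hkr
    have hkr' : k + r (Pool.Agent.Q264.EVM.E (Fin n)) ≤ Fintype.card (Fin n) := by
      rw [Fintype.card_fin]
      exact hkr
    refine ⟨fun f hP1 hP0 => ev f ?_, fun q hq => ev _ ?_⟩
    · exact Pool.Agent.Q264.EVM.span_jump (hr r h) (fun e _ => hl e) hk hkr' f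
        (fun S _ hc hrS => hP1 _ (by rw [hsp]; exact hc) (by rw [hsp]; exact hrS))
        (fun S _ hc hrS => hP0 _ (by rw [hsp]; exact hc) (by rw [hsp]; exact hrS))
    · exact Pool.Agent.Q264.EVM.and_ev (hr r h) (fun e _ => hl e) hk hkr' q hq

end Pool.Agent.Results.MP_d4e2f9_lc.InvariantMatroids
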